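import Pool.Agent.Helper65.RT.Goals
import Pool.Agent.Helper81.Tok3.FCAST
import Pool.Agent.Helper33.Ram.REL

/-!
# REL: the operations on digits do the same as the operations on states

An adaptation of the file `Tok3/REL.lean`.
-/

namespace Pool.Agent.Helper70.RT

open Pool.Agent.Helper65.LinSpace Finset Pool.Agent.Helper65.RT
open Pool.Agent.Helper81.Tok3 (fhG rgn)
open Pool.Agent.Helper81.Tok3H85 (FCAST)
open Pool.Agent.Helper28.Ram (trc)
open Pool.Agent.Helper28.Ram.Mach (sgz)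
open Pool.Agent.Helper81.Tok3.Mach (addR scaR)
open Pool.Agent.Helper33.Ram (ifz_pos eq01_pos eq01_neg lt01_pos lt01_neg
  le01_pos le01_neg)

/-! ### Codes -/

section

variable {p : ℕ} (m : Mach) (s : Mach.St p)

theorem enc0 (k : ℕ) : m.enc s (6 * k) = (s.R k).val := by
  have h1 : 6 * k % 6 = 0 := by omega
  have h2 : 6 * k / 6 = k := by omega
  unfold Mach.enc
  rw [h1, h2]
  simp

theorem enc1 (k : ℕ) : m.enc s (6 * k + 1) = s.md k := by
  have h1 : (6 * k + 1) % 6 = 1 := by omega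
  have h2 : (6 * k + 1) / 6 = k := by omega
  unfold Mach.enc
  rw [h1, h2]
  simp

theorem enc2 (k : ℕ) : m.enc s (6 * k + 2) = s.nd k := by
  have h1 : (6 * k + 2) % 6 = 2 := by omega
  have h2 : (6 * k + 2) / 6 = k := by omega
  unfold Mach.enc
  rw [h1, h2]
  simp

theorem enc3 (k : ℕ) : m.enc s (6 * k + 3) = s.sg k := by
  have h1 : (6 * k + 3) % 6 = 3 := by omega
  have h2 : (6 * k + 3) / 6 = k := by omega
  unfold Mach.enc
  rw [h1, h2]
  simp

theorem enc4 (k : ℕ) : m.enc s (6 * k + 4) = dig 2 (s.qa (k / m.σ)) (k % m.σ) := by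
  have h1 : (6 * k + 4) % 6 = 4 := by omega
  have h2 : (6 * k + 4) / 6 = k := by omega
  unfold Mach.enc
  rw [h1, h2]
  simp

theorem enc5 (k : ℕ) : m.enc s (6 * k + 5) = s.sl k := by
  have h1 : (6 * k + 5) % 6 = 5 := by omega
  have h2 : (6 * k + 5) / 6 = k := by omega
  unfold Mach.enc
  rw [h1, h2]
  simp

end

/-- The entries of the digits. -/
structure Dat {p : ℕ} (m : Mach) (J : ℕ) (a : ℕ → ℕ) (s : Mach.St p) : Prop where
  lt : ∀ x < 6 * J, a x < p
  R : ∀ k < J, a (6 * k) = (s.R k).val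
  md : ∀ k < J, a (6 * k + 1) = s.md k
  nd : ∀ k < J, a (6 * k + 2) = s.nd k
  sg : ∀ k < J, a (6 * k + 3) = s.sg k
  qa : ∀ k < J, a (6 * k + 4) = dig 2 (s.qa (k / m.σ)) (k % m.σ)
  sl : ∀ k < J, a (6 * k + 5) = s.sl k
  q2 : ∀ t ≤ m.K, s.qa t < 2 ^ m.σ

theorem rel_iff {p : ℕ} (m : Mach) (J : ℕ) (a : ℕ → ℕ) (s : Mach.St p) :
    m.Rel J a s ↔ Dat m J a s := by
  constructor
  · rintro ⟨h1, h2⟩
    refine ⟨fun x hx => (h1 x hx).2, fun k hk => ?_, fun k hk => ?_, fun k hk => ?_, fun k hk => ?_,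
      fun k hk => ?_, fun k hk => ?_, h2⟩
    · rw [(h1 (6 * k) (by omega)).1, enc0]
    · rw [(h1 (6 * k + 1) (by omega)).1, enc1]
    · rw [(h1 (6 * k + 2) (by omega)).1, enc2]
    · rw [(h1 (6 * k + 3) (by omega)).1, enc3]
    · rw [(h1 (6 * k + 4) (by omega)).1, enc4]
    · rw [(h1 (6 * k + 5) (by omega)).1, enc5]
  · intro h
    refine ⟨fun x hx => ⟨?_, h.lt x hx⟩, h.q2⟩
    obtain ⟨k, c, hc, rfl⟩ : ∃ k c, c < 6 ∧ x = 6 * k + c :=
      ⟨x / 6, x % 6, Nat.mod_lt _ (by norm_num), by omega⟩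
    have hk : k < J := by omega
    interval_cases c
    · rw [add_zero, enc0, h.R k hk]
    · rw [enc1, h.md k hk]
    · rw [enc2, h.nd k hk]
    · rw [enc3, h.sg k hk]
    · rw [enc4, h.qa k hk]
    · rw [enc5, h.sl k hk]

section

variable (m : Mach) (p l j : ℕ) (a : ℕ → ℕ) (k : ℕ)

theorem opA0 : m.opA p l j a (6 * k) = m.nR p l j a k % p := by
  have h1 : 6 * k % 6 = 0 := by omega
  have h2 : 6 * k / 6 = k := by omega
  unfold Mach.opA
  rw [h1, h2]
  simp [ifz]

theorem opA1 : m.opA p l j a (6 * k + 1) = ifz (eq01 k l) (a (6 * k + 1)) (m.cMd l j a) % p := by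
  have h1 : (6 * k + 1) % 6 = 1 := by omega
  have h2 : (6 * k + 1) / 6 = k := by omega
  unfold Mach.opA
  rw [h1, h2]
  simp [ifz]

theorem opA2 : m.opA p l j a (6 * k + 2) = ifz (eq01 k l) (a (6 * k + 2)) (m.cNd l j a) % p := by
  have h1 : (6 * k + 2) % 6 = 2 := by omega
  have h2 : (6 * k + 2) / 6 = k := by omega
  unfold Mach.opA
  rw [h1, h2]
  simp [ifz]

theorem opA3 : m.opA p l j a (6 * k + 3) = ifz (eq01 k l) (a (6 * k + 3)) (m.cSg l j a) % p := by
  have h1 : (6 * k + 3) % 6 = 3 := by omega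
  have h2 : (6 * k + 3) / 6 = k := by omega
  unfold Mach.opA
  rw [h1, h2]
  simp [ifz]

theorem opA4 : m.opA p l j a (6 * k + 4) = m.nQ p l j a k % p := by
  have h1 : (6 * k + 4) % 6 = 4 := by omega
  have h2 : (6 * k + 4) / 6 = k := by omega
  unfold Mach.opA
  rw [h1, h2]
  simp [ifz]

theorem opA5 : m.opA p l j a (6 * k + 5) = m.nSl l j a k % p := by
  have h1 : (6 * k + 5) % 6 = 5 := by omega
  have h2 : (6 * k + 5) / 6 = k := by omega
  unfold Mach.opA
  rw [h1, h2]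
  simp [ifz]

end

/-- A new state is built from its parts. -/
theorem build {p : ℕ} (m : Mach) (hp2 : 2 < p) {J : ℕ} {a : ℕ → ℕ} {s : Mach.St p}
    (h : Dat m J a s) {l j : ℕ} (R' : ℕ → ZMod p) (qa' sl' : ℕ → ℕ) (c i g : ℕ)
    (hR : ∀ k < J, ((m.nR p l j a k : ℕ) : ZMod p) = R' k)
    (hc : m.cMd l j a = c ∧ c < p) (hi : m.cNd l j a = i ∧ i < p)
    (hg : m.cSg l j a = g ∧ g < p)
    (hq : ∀ k < J, m.nQ p l j a k = dig 2 (qa' (k / m.σ)) (k % m.σ))
    (hsl : ∀ k < J, m.nSl l j a k = sl' k ∧ sl' k < p)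
    (hq2 : ∀ t ≤ m.K, qa' t < 2 ^ m.σ) :
    Dat m J (trc (6 * J) (m.opA p l j a))
      (({ s with R := R', qa := qa', sl := sl' } : Mach.St p).call l c i g) := by
  have hp : 0 < p := by omega
  have ht : ∀ x < 6 * J, trc (6 * J) (m.opA p l j a) x = m.opA p l j a x := fun x hx => if_pos hx
  have hv : ∀ n : ℕ, ∀ z : ZMod p, (n : ZMod p) = z → n % p = z.val := by
    intro n z hz
    rw [← hz, ZMod.val_natCast]
  refine ⟨fun x hx => ?_, fun k hk => ?_, fun k hk => ?_, fun k hk => ?_, fun k hk => ?_,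
    fun k hk => ?_, fun k hk => ?_, hq2⟩
  · rw [ht x hx]
    exact Nat.mod_lt _ hp
  · rw [ht _ (by omega), opA0]
    exact hv _ _ (hR k hk)
  · rw [ht _ (by omega), opA1]
    show _ = Function.update s.md l c k
    by_cases hkl : k = l
    · subst hkl
      rw [Function.update_self, ifz, eq01, if_pos rfl, if_neg (by norm_num), hc.1,
        Nat.mod_eq_of_lt hc.2]
    · rw [Function.update_of_ne hkl, ifz, eq01, if_neg hkl, if_pos rfl,
        Nat.mod_eq_of_lt (h.lt _ (by omega)), h.md k hk]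
  · rw [ht _ (by omega), opA2]
    show _ = Function.update s.nd l i k
    by_cases hkl : k = l
    · subst hkl
      rw [Function.update_self, ifz, eq01, if_pos rfl, if_neg (by norm_num), hi.1,
        Nat.mod_eq_of_lt hi.2]
    · rw [Function.update_of_ne hkl, ifz, eq01, if_neg hkl, if_pos rfl,
        Nat.mod_eq_of_lt (h.lt _ (by omega)), h.nd k hk]
  · rw [ht _ (by omega), opA3]
    show _ = Function.update s.sg l g k
    by_cases hkl : k = l
    · subst hkl
      rw [Function.update_self, ifz, eq01, if_pos rfl, if_neg (by norm_num), hg.1,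
        Nat.mod_eq_of_lt hg.2]
    · rw [Function.update_of_ne hkl, ifz, eq01, if_neg hkl, if_pos rfl,
        Nat.mod_eq_of_lt (h.lt _ (by omega)), h.sg k hk]
  · rw [ht _ (by omega), opA4, hq k hk]
    exact Nat.mod_eq_of_lt ((dig_lt (by norm_num) _ _).trans hp2)
  · rw [ht _ (by omega), opA5, (hsl k hk).1]
    exact Nat.mod_eq_of_lt (hsl k hk).2

section

variable {p : ℕ} {m : Mach} {J : ℕ} {a : ℕ → ℕ} {s : Mach.St p}

theorem Dat.qN (hok : m.Ok) (hf : m.Fit p J) (h : Dat m J a s) {t : ℕ} (ht : t ≤ m.K) :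
    m.qN a t = s.qa t := by
  have hσ := hok.hσ
  unfold Mach.qN
  rw [← tab_dig (q := 2) (s.qa t) m.σ (h.q2 t ht)]
  refine tab_congr fun o ho => ?_
  have h1 : t * m.σ + o < J := by
    have h2 := hf.h3
    have h4 : t * m.σ ≤ m.K * m.σ := Nat.mul_le_mul_right _ ht
    have h5 : (m.K + 1) * m.σ = m.K * m.σ + m.σ := by ring
    omega
  rw [h.qa _ h1]
  have h2 : (t * m.σ + o) / m.σ = t := by
    rw [mul_comm, Nat.mul_add_div hσ, Nat.div_eq_of_lt ho, add_zero]
  have h3 : (t * m.σ + o) % m.σ = o := by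
    rw [mul_comm, Nat.mul_add_mod, Nat.mod_eq_of_lt ho]
  rw [h2, h3]

variable [hpr : Fact p.Prime]

theorem Dat.Rc (h : Dat m J a s) {k : ℕ} (hk : k < J) :
    ((a (6 * k) : ℕ) : ZMod p) = s.R k := by
  rw [h.R k hk, ZMod.natCast_zmod_val]

/-- The registers stay the same or are changed without an evaluation. -/
theorem rel_same (hf : m.Fit p J) (h : Dat m J a s) {l j : ℕ}
    (hY : m.isY a l = 0) (R' : ℕ → ZMod p) (c i g : ℕ)
    (hR : ∀ k < J, ((m.nR p l j a k : ℕ) : ZMod p) = R' k)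
    (hc : m.cMd l j a = c ∧ c < p) (hi : m.cNd l j a = i ∧ i < p)
    (hg : m.cSg l j a = g ∧ g < p) :
    Dat m J (trc (6 * J) (m.opA p l j a)) (({ s with R := R' } : Mach.St p).call l c i g) := by
  refine build m hf.h5 h R' s.qa s.sl c i g hR hc hi hg (fun k hk => ?_) (fun k hk => ?_) h.q2
  · unfold Mach.nQ
    rw [hY, zero_mul, ifz_zero]
    exact h.qa k hk
  · unfold Mach.nSl
    rw [hY, zero_mul, ifz_zero]
    have h1 := h.sl k hk
    refine ⟨h1, ?_⟩
    rw [← h1]
    exact h.lt _ (by omega)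

end

/-- The registers of the content. -/
theorem rgn_pos {lo n x : ℕ} (h : lo ≤ x ∧ x < lo + n) : rgn lo n x = 1 := by
  unfold rgn
  rw [le01_pos h.1, lt01_pos h.2]

theorem rgn_neg {lo n x : ℕ} (h : ¬(lo ≤ x ∧ x < lo + n)) : rgn lo n x = 0 := by
  unfold rgn
  by_cases h1 : lo ≤ x
  · rw [lt01_neg fun h2 => h ⟨h1, h2⟩, mul_zero]
  · rw [le01_neg h1, zero_mul]

/-- The operations of a node. -/
theorem relN {p : ℕ} [hpr : Fact p.Prime] {m : Mach} {J : ℕ} {a : ℕ → ℕ} {s : Mach.St p}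
    (hf : m.Fit p J) (h : Dat m J a s) {l j : ℕ}
    (hl : l < m.K * (m.G + 2)) (hm : l % (m.G + 2) ≠ 0) :
    Dat m J (trc (6 * J) (m.opA p l j a)) (m.op l j s) := by
  have hp := hf.h5
  have hG := hf.h4
  have hJ : l + 1 < J := lt_of_le_of_lt hl hf.h2
  have e1 := h.md (l + 1) hJ
  have e2 := h.nd (l + 1) hJ
  have e3 := h.sg (l + 1) hJ
  have l3 := h.lt (6 * (l + 1) + 3) (by omega)
  rw [e3] at l3
  have l2 := h.lt (6 * (l + 1) + 2) (by omega)
  rw [e2] at l2
  have hY : m.isY a l = 0 := by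
    unfold Mach.isY
    rw [eq01_neg hm, zero_mul]
  have hZ : m.isZ a l j = 0 := by
    unfold Mach.isZ
    rw [eq01_neg hm, zero_mul]
  have hop : m.op l j s = m.opN l (l / (m.G + 2)) (l % (m.G + 2)) j s := by
    unfold Mach.op
    rw [if_neg hm]
  rw [hop]
  have hpos : 0 < l % (m.G + 2) := Nat.pos_of_ne_zero hm
  by_cases hA : s.md (l + 1) = 1 ∧ s.nd (l + 1) < l % (m.G + 2)
  · have hN : m.isN a l = 1 := by
      unfold Mach.isN
      rw [e1, e2, lt01_pos hpos, eq01_pos hA.1, lt01_pos hA.2]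
    have hw : j % (2 * m.G + 3) < 2 * m.G + 3 := Nat.mod_lt _ (by omega)
    have hR0 : j % (2 * m.G + 3) ≠ 0 → j % (2 * m.G + 3) ≠ 2 * m.G + 2 →
        ∀ k < J, ((m.nR p l j a k : ℕ) : ZMod p) = s.R k := by
      intro h0 h1 k hk
      unfold Mach.nR
      rw [hY, ifz_zero, hZ, ifz_zero, eq01_neg h1, ifz_zero, ifz_pos h0]
      unfold ifz
      split_ifs <;> exact h.Rc hk
    unfold Mach.opN
    rw [if_pos hA]
    by_cases h0 : j % (2 * m.G + 3) = 0
    · rw [if_pos h0]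
      refine rel_same hf h hY _ 0 0 0 (fun k hk => ?_) ⟨?_, by omega⟩ ⟨?_, by omega⟩
        ⟨?_, by omega⟩
      · unfold Mach.nR Pool.Agent.Helper81.Tok3.Mach.scaR
        rw [hY, hZ, hN, ifz_zero, ifz_zero, h0, ifz_zero, one_mul, e2]
        by_cases hk2 : m.zb (l / (m.G + 2)) ≤ k ∧
            k < m.zb (l / (m.G + 2)) + s.nd (l + 1) * m.wn
        · rw [rgn_pos hk2, ifz_pos one_ne_zero, if_pos hk2, ZMod.natCast_mod, Nat.cast_mul,
            h.Rc hk]
        · rw [rgn_neg hk2, ifz_zero, if_neg hk2, h.Rc hk]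
      · unfold Mach.cMd
        rw [hY, ifz_zero, hZ, ifz_zero, hN, ifz_pos one_ne_zero, h0, ifz_zero]
      · unfold Mach.cNd
        rw [hY, ifz_zero, hZ, ifz_zero, hN, ifz_pos one_ne_zero, h0, ifz_zero]
      · unfold Mach.cSg
        rw [hY, ifz_zero, hZ, ifz_zero, hN, ifz_pos one_ne_zero, h0, ifz_zero]
    rw [if_neg h0]
    by_cases h1 : j % (2 * m.G + 3) ≤ m.G
    · rw [if_pos h1]
      have hR := hR0 h0 (by omega)
      by_cases h2 : j % (2 * m.G + 3) - 1 < s.nd (l + 1)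
      · rw [if_pos h2]
        refine rel_same hf h hY _ 1 (j % (2 * m.G + 3) - 1) 0 hR ⟨?_, by omega⟩ ⟨?_, by omega⟩
          ⟨?_, by omega⟩
        · unfold Mach.cMd
          rw [hY, ifz_zero, hZ, ifz_zero, hN, ifz_pos one_ne_zero, ifz_pos h0, le01_pos h1,
            ifz_pos one_ne_zero, e2, lt01_pos h2]
        · unfold Mach.cNd
          rw [hY, ifz_zero, hZ, ifz_zero, hN, ifz_pos one_ne_zero, ifz_pos h0, le01_pos h1,
            ifz_pos one_ne_zero, e2, lt01_pos h2, one_mul]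
        · unfold Mach.cSg
          rw [hY, ifz_zero, hZ, ifz_zero, hN, ifz_pos one_ne_zero, ifz_pos h0, le01_pos h1,
            ifz_pos one_ne_zero]
      · rw [if_neg h2]
        refine rel_same hf h hY _ 0 0 0 hR ⟨?_, by omega⟩ ⟨?_, by omega⟩ ⟨?_, by omega⟩
        · unfold Mach.cMd
          rw [hY, ifz_zero, hZ, ifz_zero, hN, ifz_pos one_ne_zero, ifz_pos h0, le01_pos h1,
            ifz_pos one_ne_zero, e2, lt01_neg h2]
        · unfold Mach.cNd
          rw [hY, ifz_zero, hZ, ifz_zero, hN, ifz_pos one_ne_zero, ifz_pos h0, le01_pos h1,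
            ifz_pos one_ne_zero, e2, lt01_neg h2, zero_mul]
        · unfold Mach.cSg
          rw [hY, ifz_zero, hZ, ifz_zero, hN, ifz_pos one_ne_zero, ifz_pos h0, le01_pos h1,
            ifz_pos one_ne_zero]
    rw [if_neg h1]
    by_cases h3 : j % (2 * m.G + 3) = m.G + 1
    · rw [if_pos h3]
      have hR := hR0 h0 (by omega)
      refine rel_same hf h hY _ 2 (s.nd (l + 1)) (s.sg (l + 1)) hR ⟨?_, by omega⟩ ⟨?_, l2⟩ ⟨?_, l3⟩
      · unfold Mach.cMd
        rw [hY, ifz_zero, hZ, ifz_zero, hN, ifz_pos one_ne_zero, ifz_pos h0, le01_neg h1,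
          ifz_zero, eq01_pos h3, ifz_pos one_ne_zero]
      · unfold Mach.cNd
        rw [hY, ifz_zero, hZ, ifz_zero, hN, ifz_pos one_ne_zero, ifz_pos h0, le01_neg h1,
          ifz_zero, eq01_pos h3, ifz_pos one_ne_zero, e2]
      · unfold Mach.cSg
        rw [hY, ifz_zero, hZ, ifz_zero, hN, ifz_pos one_ne_zero, ifz_pos h0, le01_neg h1,
          ifz_zero, eq01_pos h3, ifz_pos one_ne_zero, e3]
    rw [if_neg h3]
    by_cases h4 : j % (2 * m.G + 3) ≤ 2 * m.G + 1
    · rw [if_pos h4]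
      have hR := hR0 h0 (by omega)
      by_cases h5 : j % (2 * m.G + 3) - (m.G + 2) < s.nd (l + 1)
      · rw [if_pos h5]
        refine rel_same hf h hY _ 1 (j % (2 * m.G + 3) - (m.G + 2)) 1 hR ⟨?_, by omega⟩
          ⟨?_, by omega⟩ ⟨?_, by omega⟩
        · unfold Mach.cMd
          rw [hY, ifz_zero, hZ, ifz_zero, hN, ifz_pos one_ne_zero, ifz_pos h0, le01_neg h1,
            ifz_zero, eq01_neg h3, ifz_zero, le01_pos h4, ifz_pos one_ne_zero, e2, lt01_pos h5]
        · unfold Mach.cNd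
          rw [hY, ifz_zero, hZ, ifz_zero, hN, ifz_pos one_ne_zero, ifz_pos h0, le01_neg h1,
            ifz_zero, eq01_neg h3, ifz_zero, le01_pos h4, ifz_pos one_ne_zero, e2, lt01_pos h5,
            one_mul]
        · unfold Mach.cSg
          rw [hY, ifz_zero, hZ, ifz_zero, hN, ifz_pos one_ne_zero, ifz_pos h0, le01_neg h1,
            ifz_zero, eq01_neg h3, ifz_zero, le01_pos h4, ifz_pos one_ne_zero, e2, lt01_pos h5]
      · rw [if_neg h5]
        refine rel_same hf h hY _ 0 0 0 hR ⟨?_, by omega⟩ ⟨?_, by omega⟩ ⟨?_, by omega⟩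
        · unfold Mach.cMd
          rw [hY, ifz_zero, hZ, ifz_zero, hN, ifz_pos one_ne_zero, ifz_pos h0, le01_neg h1,
            ifz_zero, eq01_neg h3, ifz_zero, le01_pos h4, ifz_pos one_ne_zero, e2, lt01_neg h5]
        · unfold Mach.cNd
          rw [hY, ifz_zero, hZ, ifz_zero, hN, ifz_pos one_ne_zero, ifz_pos h0, le01_neg h1,
            ifz_zero, eq01_neg h3, ifz_zero, le01_pos h4, ifz_pos one_ne_zero, e2, lt01_neg h5,
            zero_mul]
        · unfold Mach.cSg
          rw [hY, ifz_zero, hZ, ifz_zero, hN, ifz_pos one_ne_zero, ifz_pos h0, le01_neg h1,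
            ifz_zero, eq01_neg h3, ifz_zero, le01_pos h4, ifz_pos one_ne_zero, e2, lt01_neg h5]
    · rw [if_neg h4]
      have h6 : j % (2 * m.G + 3) = 2 * m.G + 2 := by omega
      refine rel_same hf h hY _ 0 0 0 (fun k hk => ?_) ⟨?_, by omega⟩ ⟨?_, by omega⟩
        ⟨?_, by omega⟩
      · unfold Mach.nR Pool.Agent.Helper81.Tok3.Mach.scaR
        rw [hY, hZ, hN, ifz_zero, ifz_zero, ifz_pos h0, eq01_pos h6, ifz_pos one_ne_zero, one_mul, e2]
        by_cases hk2 : m.zb (l / (m.G + 2)) ≤ k ∧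
            k < m.zb (l / (m.G + 2)) + s.nd (l + 1) * m.wn
        · rw [rgn_pos hk2, ifz_pos one_ne_zero, if_pos hk2, ZMod.natCast_mod, Nat.cast_mul,
            h.Rc hk, invN_cast hp]
        · rw [rgn_neg hk2, ifz_zero, if_neg hk2, h.Rc hk]
      · unfold Mach.cMd
        rw [hY, ifz_zero, hZ, ifz_zero, hN, ifz_pos one_ne_zero, ifz_pos h0, le01_neg h1,
          ifz_zero, eq01_neg h3, ifz_zero, le01_neg h4, ifz_zero]
      · unfold Mach.cNd
        rw [hY, ifz_zero, hZ, ifz_zero, hN, ifz_pos one_ne_zero, ifz_pos h0, le01_neg h1,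
          ifz_zero, eq01_neg h3, ifz_zero, le01_neg h4, ifz_zero]
      · unfold Mach.cSg
        rw [hY, ifz_zero, hZ, ifz_zero, hN, ifz_pos one_ne_zero, ifz_pos h0, le01_neg h1,
          ifz_zero, eq01_neg h3, ifz_zero, le01_neg h4, ifz_zero]
  · have hN : m.isN a l = 0 := by
      unfold Mach.isN
      rw [e1, e2, lt01_pos hpos, one_mul]
      by_cases h1 : s.md (l + 1) = 1
      · rw [lt01_neg fun h2 => hA ⟨h1, h2⟩, mul_zero]
      · rw [eq01_neg h1, zero_mul]
    have hR : ∀ k < J, ((m.nR p l j a k : ℕ) : ZMod p) = s.R k := by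
      intro k hk
      unfold Mach.nR
      rw [hY, hZ, hN, ifz_zero, ifz_zero, zero_mul, ifz_zero, h.Rc hk]
    unfold Mach.opN
    rw [if_neg hA]
    by_cases hB : s.md (l + 1) = 2 ∧ s.nd (l + 1) ≤ m.G ∧ j = 0
    · have hP : m.isP a l j = 1 := by
        unfold Mach.isP
        rw [e1, e2, lt01_pos hpos, eq01_pos hB.1, le01_pos hB.2.1, eq01_pos hB.2.2]
      rw [if_pos hB]
      refine rel_same hf h hY _ 2 (s.nd (l + 1)) (s.sg (l + 1)) hR ⟨?_, by omega⟩ ⟨?_, l2⟩ ⟨?_, l3⟩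
      · unfold Mach.cMd
        rw [hY, hZ, hN, ifz_zero, ifz_zero, ifz_zero, hP, ifz_pos one_ne_zero]
      · unfold Mach.cNd
        rw [hY, hZ, hN, ifz_zero, ifz_zero, ifz_zero, hP, ifz_pos one_ne_zero, e2]
      · unfold Mach.cSg
        rw [hY, hZ, hN, ifz_zero, ifz_zero, ifz_zero, hP, ifz_pos one_ne_zero, e3]
    · have hP : m.isP a l j = 0 := by
        unfold Mach.isP
        rw [e1, e2, lt01_pos hpos, one_mul]
        by_cases h1 : s.md (l + 1) = 2
        · by_cases h2 : s.nd (l + 1) ≤ m.G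
          · rw [eq01_neg fun h3 => hB ⟨h1, h2, h3⟩, mul_zero]
          · rw [le01_neg h2, mul_zero, zero_mul]
        · rw [eq01_neg h1, zero_mul, zero_mul]
      rw [if_neg hB]
      refine rel_same hf h hY _ 0 0 0 hR ⟨?_, by omega⟩ ⟨?_, by omega⟩ ⟨?_, by omega⟩
      · unfold Mach.cMd
        rw [hY, hZ, hN, ifz_zero, ifz_zero, ifz_zero, hP, ifz_zero]
      · unfold Mach.cNd
        rw [hY, hZ, hN, ifz_zero, ifz_zero, ifz_zero, hP, ifz_zero]
      · unfold Mach.cSg
        rw [hY, hZ, hN, ifz_zero, ifz_zero, ifz_zero, hP, ifz_zero]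

/-- Multiplication of a range of registers. -/
theorem sca_case {p : ℕ} [Fact p.Prime] {m : Mach} {J : ℕ} {a : ℕ → ℕ} {s : Mach.St p}
    (h : Dat m J a s) {x : ℕ} (hx : x < J) (lo n c : ℕ) (u : ZMod p) (hc : ((c : ℕ) : ZMod p) = u) :
    ((ifz (rgn lo n x) (a (6 * x)) (c * a (6 * x) % p) : ℕ) : ZMod p) = scaR lo n u s.R x := by
  unfold Pool.Agent.Helper81.Tok3.Mach.scaR
  by_cases h1 : lo ≤ x ∧ x < lo + n
  · rw [rgn_pos h1, ifz_pos one_ne_zero, if_pos h1, ZMod.natCast_mod, Nat.cast_mul, hc, h.Rc hx]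
  · rw [rgn_neg h1, ifz_zero, if_neg h1, h.Rc hx]

/-- The registers of the digests of a phase. -/
theorem zb_lt {p : ℕ} {m : Mach} {J : ℕ} (hf : m.Fit p J) (k : ℕ) {o : ℕ}
    (ho : o < m.G * m.wn + m.wv) : m.zb k + o < J := by
  have h1 := hf.h1
  have h2 : m.zb k ≤ 1 * (m.G * m.wn + m.wv) := Nat.mul_le_mul_right _ (by omega)
  omega

/-- The variables of a node. -/
theorem vars_cast {p : ℕ} [Fact p.Prime] {m : Mach} {J : ℕ} {a : ℕ → ℕ} {s : Mach.St p}
    (hf : m.Fit p J) (h : Dat m J a s) {i : ℕ} (hi : i ≤ m.G) (k : ℕ)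
    (j' : ℕ) (hj' : j' < m.nv i) :
    m.varN i (fun j => a (6 * (m.zb k + j))) (fun j => a (6 * (m.yb k + j))) j' < p ∧
      ((m.varN i (fun j => a (6 * (m.zb k + j))) (fun j => a (6 * (m.yb k + j))) j' : ℕ) :
        ZMod p) =
        m.vars p i (fun j => s.R (m.zb k + j)) (fun j => s.R (m.yb k + j)) j' := by
  have h2 : i * m.wn ≤ m.G * m.wn := Nat.mul_le_mul_right _ hi
  unfold Mach.nv at hj'
  unfold Mach.varN Mach.vars
  by_cases h3 : j' < i * m.wn
  · have h4 : m.zb k + j' < J := zb_lt hf k (by omega)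
    rw [lt01_pos h3, ifz_pos one_ne_zero, if_pos h3]
    exact ⟨h.lt _ (by omega), h.Rc h4⟩
  · have h4 : m.yb k + (j' - i * m.wn) < J := by
      have h5 : m.zb k + (m.G * m.wn + (j' - i * m.wn)) < J := zb_lt hf k (by omega)
      unfold Mach.yb
      omega
    rw [lt01_neg h3, ifz_zero, if_neg h3]
    exact ⟨h.lt _ (by omega), h.Rc h4⟩

/-- The operations of the evaluation of the polynomials of a node before `G`. -/
theorem relY {p : ℕ} [hpr : Fact p.Prime] {m : Mach} {J : ℕ} {a : ℕ → ℕ} {s : Mach.St p}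
    (hok : m.Ok) (hf : m.Fit p J) (h : Dat m J a s)
    {l j : ℕ} (hl : l < m.K * (m.G + 2)) (hm : l % (m.G + 2) = 0)
    (hA : s.md (l + 1) = 2 ∧ s.nd (l + 1) < m.G) :
    Dat m J (trc (6 * J) (m.opA p l j a))
      (m.opY l (l / (m.G + 2)) (j / (2 * m.E + 3) / (p - 1)) (j / (2 * m.E + 3) % (p - 1) + 1)
        (j % (2 * m.E + 3)) s) := by
  have hp := hf.h5
  have hG := hf.h4
  have hE := hf.h6
  have hJ : l + 1 < J := lt_of_le_of_lt hl hf.h2
  have e1 := h.md (l + 1) hJ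
  have e2 := h.nd (l + 1) hJ
  have e3 := h.sg (l + 1) hJ
  have hkK : l / (m.G + 2) < m.K := by
    rw [Nat.div_lt_iff_lt_mul (by omega)]
    exact hl
  have hqk : m.qN a (l / (m.G + 2) + 1) = s.qa (l / (m.G + 2) + 1) := h.qN hok hf hkK
  have htE : j % (2 * m.E + 3) < 2 * m.E + 3 := Nat.mod_lt _ (by omega)
  have hY : m.isY a l = 1 := by
    unfold Mach.isY
    rw [eq01_pos hm, e1, e2, eq01_pos hA.1, lt01_pos hA.2]
  have hnR : ∀ x, m.nR p l j a x = m.yR p (l / (m.G + 2)) (s.nd (l + 1))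
      (s.qa (l / (m.G + 2) + 1)) (j / (2 * m.E + 3) / (p - 1))
      (j / (2 * m.E + 3) % (p - 1) + 1) (j % (2 * m.E + 3)) (s.sg (l + 1)) a x := by
    intro x
    unfold Mach.nR
    rw [hY, ifz_pos one_ne_zero, e2, e3, hqk]
  have hMd : m.cMd l j a = m.isQ (j % (2 * m.E + 3)) := by
    unfold Mach.cMd
    rw [hY, ifz_pos one_ne_zero]
  have hNd : m.cNd l j a = m.isQ (j % (2 * m.E + 3)) * m.G := by
    unfold Mach.cNd
    rw [hY, ifz_pos one_ne_zero]
  have hSg : m.cSg l j a = m.isQ (j % (2 * m.E + 3)) * lt01 (m.E + 1) (j % (2 * m.E + 3)) := by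
    unfold Mach.cSg
    rw [hY, ifz_pos one_ne_zero]
  have hnQ : ∀ x, m.nQ p l j a x =
      ifz (m.isQ (j % (2 * m.E + 3)) * eq01 (x / m.σ) (l / (m.G + 2))) (a (6 * x + 4))
      (dig 2 (dig (2 ^ m.σ) (j / (2 * m.E + 3) / (p - 1)) (m.ixq (j % (2 * m.E + 3))))
        (x % m.σ)) := by
    intro x
    unfold Mach.nQ
    rw [hY, one_mul]
  have hnSl : ∀ x, m.nSl l j a x =
      ifz (m.isQ (j % (2 * m.E + 3)) * eq01 x (l / (m.G + 2))) (a (6 * x + 5))
        (m.ixq (j % (2 * m.E + 3))) := by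
    intro x
    unfold Mach.nSl
    rw [hY, one_mul]
  generalize hk : l / (m.G + 2) = k at *
  generalize hy : j / (2 * m.E + 3) / (p - 1) = y at *
  generalize hc : j / (2 * m.E + 3) % (p - 1) + 1 = c at *
  generalize ht : j % (2 * m.E + 3) = t at *
  generalize hi : s.nd (l + 1) = i at *
  generalize hg : s.sg (l + 1) = g at *
  have hsame : m.isQ t = 0 → ∀ R' : ℕ → ZMod p,
      (∀ x < J, ((m.nR p l j a x : ℕ) : ZMod p) = R' x) →
      Dat m J (trc (6 * J) (m.opA p l j a)) (({ s with R := R' } : Mach.St p).call l 0 0 0) := by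
    intro hq R' hR
    refine build m hp h R' s.qa s.sl 0 0 0 hR ⟨?_, by omega⟩ ⟨?_, by omega⟩ ⟨?_, by omega⟩
      (fun x hx => ?_) (fun x hx => ?_) h.q2
    · rw [hMd, hq]
    · rw [hNd, hq, zero_mul]
    · rw [hSg, hq, zero_mul]
    · rw [hnQ, hq, zero_mul, ifz_zero, h.qa x hx]
    · have h1 := h.sl x hx
      rw [hnSl, hq, zero_mul, ifz_zero, h1]
      refine ⟨rfl, ?_⟩
      rw [← h1]
      exact h.lt _ (by omega)
  have hquery : ∀ e g' : ℕ, m.isQ t = 1 → m.ixq t = e → e < m.E → t ≠ 0 → t ≠ m.E + 1 →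
      t ≠ 2 * m.E + 2 → lt01 (m.E + 1) t = g' →
      Dat m J (trc (6 * J) (m.opA p l j a))
        ((s.query k (dig (2 ^ m.σ) y e) e).call l 1 m.G g') := by
    intro e g' hq he heE ht0 ht1 ht2 hg'
    have hg2 : g' < p := by
      rw [← hg']
      unfold lt01
      split_ifs <;> omega
    refine build m hp h s.R (Function.update s.qa k (dig (2 ^ m.σ) y e))
      (Function.update s.sl k e) 1 m.G g' (fun x hx => ?_) ⟨?_, by omega⟩ ⟨?_, hG⟩
      ⟨?_, hg2⟩ (fun x hx => ?_) (fun x hx => ?_) (fun t' ht' => ?_)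
    · rw [hnR x]
      unfold Mach.yR
      rw [ifz_pos ht0, eq01_neg ht1, ifz_zero, eq01_neg ht2, zero_mul, ifz_zero, h.Rc hx]
    · rw [hMd, hq]
    · rw [hNd, hq, one_mul]
    · rw [hSg, hq, one_mul, hg']
    · rw [hnQ x, hq, one_mul, he]
      by_cases h3 : x / m.σ = k
      · rw [eq01_pos h3, ifz_pos one_ne_zero, h3, Function.update_self]
      · rw [eq01_neg h3, ifz_zero, Function.update_of_ne h3, h.qa x hx]
    · rw [hnSl x, hq, one_mul, he]
      by_cases h3 : x = k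
      · rw [eq01_pos h3, ifz_pos one_ne_zero, h3, Function.update_self]
        exact ⟨rfl, by omega⟩
      · have h1 := h.sl x hx
        rw [eq01_neg h3, ifz_zero, Function.update_of_ne h3, h1]
        refine ⟨rfl, ?_⟩
        rw [← h1]
        exact h.lt _ (by omega)
    · by_cases ht2 : t' = k
      · rw [ht2, Function.update_self]
        exact dig_lt (by positivity) _ _
      · rw [Function.update_of_ne ht2]
        exact h.q2 t' ht'
  unfold Mach.opY
  rw [hi, hg]
  by_cases h1 : t = 0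
  · rw [if_pos h1]
    refine hsame (by unfold Mach.isQ; rw [h1, ifz_zero]) _ fun x hx => ?_
    rw [hnR x]
    unfold Mach.yR
    rw [h1, ifz_zero]
    exact sca_case h hx _ _ _ _ rfl
  rw [if_neg h1]
  by_cases h2 : t ≤ m.E
  · rw [if_pos h2]
    refine hquery (t - 1) 0 ?_ ?_ (by omega) h1 (by omega) (by omega) (lt01_neg (by omega))
    · unfold Mach.isQ
      rw [ifz_pos h1, eq01_neg (by omega), ifz_zero, le01_pos (by omega)]
    · unfold Mach.ixq
      rw [lt01_neg (by omega), ifz_zero]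
  rw [if_neg h2]
  by_cases h3 : t = m.E + 1
  · rw [if_pos h3]
    refine hsame ?_ _ fun x hx => ?_
    · unfold Mach.isQ
      rw [ifz_pos h1, eq01_pos h3, ifz_pos one_ne_zero]
    · rw [hnR x]
      unfold Mach.yR Pool.Agent.Helper81.Tok3.Mach.addR
      rw [ifz_pos h1, eq01_pos h3, ifz_pos one_ne_zero]
      by_cases h4 : m.zb k + i * m.wn ≤ x ∧ x < m.zb k + i * m.wn + m.wn
      · rw [rgn_pos h4, ifz_pos one_ne_zero, if_pos h4, ZMod.natCast_mod, Nat.cast_add,
          Nat.cast_mul, h.Rc hx]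
        congr 1
        congr 1
        · by_cases hs : g = 0
          · rw [hs, ifz_zero, sgz, if_pos rfl, Nat.cast_one]
          · rw [ifz_pos hs, sgz, if_neg hs, Nat.cast_sub (by omega), ZMod.natCast_self]
            push_cast
            ring
        · refine FCAST.1 p _ _ _ _ _ fun j' hj' => ?_
          exact vars_cast hf h hA.2.le k j' hj'
      · rw [rgn_neg h4, ifz_zero, if_neg h4, h.Rc hx]
  rw [if_neg h3]
  by_cases h4 : t ≤ 2 * m.E + 1
  · rw [if_pos h4]
    refine hquery (t - (m.E + 2)) 1 ?_ ?_ (by omega) h1 (by omega) (by omega) (lt01_pos (by omega))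
    · unfold Mach.isQ
      rw [ifz_pos h1, eq01_neg (by omega), ifz_zero, le01_pos (by omega)]
    · unfold Mach.ixq
      rw [lt01_pos (by omega), ifz_pos one_ne_zero]
  rw [if_neg h4]
  have h5 : t = 2 * m.E + 2 := by omega
  refine hsame ?_ _ fun x hx => ?_
  · unfold Mach.isQ
    rw [ifz_pos h1, eq01_neg (by omega), ifz_zero, le01_neg (by omega)]
  · rw [hnR x]
    unfold Mach.yR
    rw [ifz_pos h1, eq01_neg h3, ifz_zero, eq01_pos h5, one_mul]
    exact sca_case h hx _ _ _ _ (invN_cast hp _)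

/-- The first register of the value which is computed. -/
theorem tg_eq {p : ℕ} {m : Mach} {J : ℕ} {a : ℕ → ℕ} {s : Mach.St p}
    (h : Dat m J a s) {k : ℕ} (hk : k < J) : m.tgN a k = m.tg s k := by
  unfold Mach.tgN Mach.tg
  rw [h.sl k hk]

/-- The operations of the evaluation of the polynomials of the node `G`. -/
theorem relZ {p : ℕ} [hpr : Fact p.Prime] {m : Mach} {J : ℕ} {a : ℕ → ℕ} {s : Mach.St p}
    (hok : m.Ok) (hf : m.Fit p J) (h : Dat m J a s)
    {l j : ℕ} (hl : l < m.K * (m.G + 2)) (hm : l % (m.G + 2) = 0)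
    (hA : s.md (l + 1) = 2 ∧ s.nd (l + 1) = m.G ∧ j = 0) :
    Dat m J (trc (6 * J) (m.opA p l j a))
      (({ s with
        R := addR (m.tg s (l / (m.G + 2) + 1)) m.b (fun o => -(sgz p (s.sg (l + 1)) *
          fhat p (m.G * m.wn) (m.o (s.qa (l / (m.G + 2) + 1))) o
            fun j => s.R (m.zb (l / (m.G + 2)) + j))) s.R } : Mach.St p).call l 0 0 0) := by
  have hp := hf.h5
  have hJ : l + 1 < J := lt_of_le_of_lt hl hf.h2
  have e1 := h.md (l + 1) hJ
  have e2 := h.nd (l + 1) hJ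
  have e3 := h.sg (l + 1) hJ
  have hkK : l / (m.G + 2) < m.K := by
    rw [Nat.div_lt_iff_lt_mul (by omega)]
    exact hl
  have hJk : l / (m.G + 2) + 1 < J := by
    have h3 : l / (m.G + 2) ≤ l := Nat.div_le_self _ _
    omega
  have hqk : m.qN a (l / (m.G + 2) + 1) = s.qa (l / (m.G + 2) + 1) := h.qN hok hf hkK
  have hY : m.isY a l = 0 := by
    unfold Mach.isY
    rw [e1, e2, lt01_neg (by omega), mul_zero, mul_zero]
  have hZ : m.isZ a l j = 1 := by
    unfold Mach.isZ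
    rw [eq01_pos hm, e1, e2, eq01_pos hA.1, eq01_pos hA.2.1, eq01_pos hA.2.2]
  refine rel_same hf h hY _ 0 0 0 (fun x hx => ?_) ⟨?_, by omega⟩ ⟨?_, by omega⟩ ⟨?_, by omega⟩
  · unfold Mach.nR Pool.Agent.Helper81.Tok3.Mach.addR
    rw [hY, hZ, ifz_zero, ifz_pos one_ne_zero, hqk, e3, tg_eq h hJk]
    generalize hk : l / (m.G + 2) = k at *
    generalize hg : s.sg (l + 1) = g at *
    by_cases h4 : m.tg s (k + 1) ≤ x ∧ x < m.tg s (k + 1) + m.b
    · rw [rgn_pos h4, ifz_pos one_ne_zero, if_pos h4, ZMod.natCast_mod, Nat.cast_add,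
        Nat.cast_mul, h.Rc hx]
      show _ = s.R x + -(sgz p g * fhat p (m.G * m.wn) (m.o (s.qa (k + 1))) (x - m.tg s (k + 1))
        fun j => s.R (m.zb k + j))
      rw [neg_mul_eq_neg_mul]
      congr 1
      congr 1
      · by_cases hs : g = 0
        · rw [hs, ifz_zero, sgz, if_pos rfl, Nat.cast_sub (by omega), ZMod.natCast_self]
          push_cast
          ring
        · rw [ifz_pos hs, sgz, if_neg hs, Nat.cast_one, neg_neg]
      · refine FCAST.1 p _ _ _ _ _ fun j' hj' => ?_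
        have h5 : m.zb k + j' < J := zb_lt hf k (by omega)
        exact ⟨h.lt _ (by omega), h.Rc h5⟩
    · rw [rgn_neg h4, ifz_zero, if_neg h4, h.Rc hx]
  · unfold Mach.cMd
    rw [hY, hZ, ifz_zero, ifz_pos one_ne_zero]
  · unfold Mach.cNd
    rw [hY, hZ, ifz_zero, ifz_pos one_ne_zero]
  · unfold Mach.cSg
    rw [hY, hZ, ifz_zero, ifz_pos one_ne_zero]

theorem REL : Pool.Agent.Helper65.RT.REL_stmt := by
  intro m p hpr hok J hf
  refine ⟨fun l hl j a s h => ?_, fun a s h => ?_⟩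
  · rw [rel_iff] at h ⊢
    by_cases hm : l % (m.G + 2) = 0
    · have hop : m.op l j s = m.opE l (l / (m.G + 2)) j s := by
        unfold Mach.op
        rw [if_pos hm]
      rw [hop]
      unfold Mach.opE
      by_cases hA : s.md (l + 1) = 2 ∧ s.nd (l + 1) < m.G
      · rw [if_pos hA]
        exact relY hok hf h hl hm hA
      rw [if_neg hA]
      by_cases hB : s.md (l + 1) = 2 ∧ s.nd (l + 1) = m.G ∧ j = 0
      · rw [if_pos hB]
        exact relZ hok hf h hl hm hB
      rw [if_neg hB]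
      have hp := hf.h5
      have hJ : l + 1 < J := lt_of_le_of_lt hl hf.h2
      have e1 := h.md (l + 1) hJ
      have e2 := h.nd (l + 1) hJ
      have hN : m.isN a l = 0 := by
        unfold Mach.isN
        rw [hm, lt01_neg (lt_irrefl 0), zero_mul]
      have hP : m.isP a l j = 0 := by
        unfold Mach.isP
        rw [hm, lt01_neg (lt_irrefl 0), zero_mul]
      have hY : m.isY a l = 0 := by
        unfold Mach.isY
        rw [e1, e2, eq01_pos hm, one_mul]
        by_cases h1 : s.md (l + 1) = 2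
        · rw [lt01_neg fun h2 => hA ⟨h1, h2⟩, mul_zero]
        · rw [eq01_neg h1, zero_mul]
      have hZ : m.isZ a l j = 0 := by
        unfold Mach.isZ
        rw [e1, e2, eq01_pos hm, one_mul]
        by_cases h1 : s.md (l + 1) = 2
        · by_cases h2 : s.nd (l + 1) = m.G
          · rw [eq01_neg fun h3 => hB ⟨h1, h2, h3⟩, mul_zero]
          · rw [eq01_neg h2, mul_zero, zero_mul]
        · rw [eq01_neg h1, zero_mul, zero_mul]
      refine rel_same hf h hY s.R 0 0 0 (fun k hk => ?_) ⟨?_, by omega⟩ ⟨?_, by omega⟩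
        ⟨?_, by omega⟩
      · unfold Mach.nR
        rw [hY, hZ, hN, ifz_zero, ifz_zero, zero_mul, ifz_zero, h.Rc hk]
      · unfold Mach.cMd
        rw [hY, hZ, hN, ifz_zero, ifz_zero, ifz_zero, hP, ifz_zero]
      · unfold Mach.cNd
        rw [hY, hZ, hN, ifz_zero, ifz_zero, ifz_zero, hP, ifz_zero]
      · unfold Mach.cSg
        rw [hY, hZ, hN, ifz_zero, ifz_zero, ifz_zero, hP, ifz_zero]
    · exact relN hf h hl hm
  · have hD := (rel_iff m J a s).1 h
    have hp := hf.h5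
    have hJ := hf.h2
    have hJ0 : 0 < J := by omega
    have e1 : a 1 = s.md 0 := by simpa using hD.md 0 hJ0
    have e3 : a 3 = s.sg 0 := by simpa using hD.sg 0 hJ0
    have hq0 : m.qN a 0 = s.qa 0 := hD.qN hok hf (Nat.zero_le _)
    have hbase : ∀ x, m.baseA p a x = (a x + eq01 (s.md 0) 1 * (eq01 (x % 6) 0 *
        rgn (m.tg s 0) m.b (x / 6)) * (ifz (s.sg 0) 1 (p - 1) *
          dig 2 (m.t0 (s.qa 0)) (x / 6 - m.tg s 0))) % p := by
      intro x
      unfold Mach.baseA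
      rw [e1, e3, hq0, tg_eq hD hJ0]
    have ht : ∀ x < 6 * J, trc (6 * J) (m.baseA p a) x = m.baseA p a x := fun x hx => if_pos hx
    have hsame : ∀ k < J, ∀ c, 0 < c → c < 6 → m.baseA p a (6 * k + c) = a (6 * k + c) := by
      intro k hk c hc hc7
      rw [hbase, eq01_neg (x := (6 * k + c) % 6) (by omega), zero_mul, mul_zero, zero_mul,
        add_zero, Nat.mod_eq_of_lt (hD.lt _ (by omega))]
    unfold Mach.op0
    rw [rel_iff]
    by_cases hA : s.md 0 = 1
    · rw [if_pos hA]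
      refine ⟨fun x hx => ?_, fun k hk => ?_, fun k hk => ?_, fun k hk => ?_, fun k hk => ?_,
        fun k hk => ?_, fun k hk => ?_, hD.q2⟩
      · rw [ht x hx]
        exact Nat.mod_lt _ (by omega)
      · rw [ht _ (by omega), hbase]
        have h1 : 6 * k % 6 = 0 := by omega
        have h2 : 6 * k / 6 = k := by omega
        rw [h1, h2, eq01_pos hA, eq01_pos rfl, one_mul, one_mul, ← ZMod.val_natCast]
        congr 1
        rw [Nat.cast_add, hD.Rc hk]
        unfold Pool.Agent.Helper81.Tok3.Mach.addR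
        show _ = (if m.tg s 0 ≤ k ∧ k < m.tg s 0 + m.b then s.R k + sgz p (s.sg 0) *
          bitZ p (m.t0 (s.qa 0)) (k - m.tg s 0) else s.R k)
        by_cases hk2 : m.tg s 0 ≤ k ∧ k < m.tg s 0 + m.b
        · rw [rgn_pos hk2, one_mul, if_pos hk2, Nat.cast_mul]
          congr 1
          congr 1
          by_cases hs : s.sg 0 = 0
          · rw [hs, ifz_zero, sgz, if_pos rfl, Nat.cast_one]
          · rw [ifz_pos hs, sgz, if_neg hs, Nat.cast_sub (by omega), ZMod.natCast_self]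
            push_cast
            ring
        · rw [rgn_neg hk2, zero_mul, if_neg hk2, Nat.cast_zero, add_zero]
      · rw [ht _ (by omega), hsame k hk 1 (by norm_num) (by norm_num), hD.md k hk]
      · rw [ht _ (by omega), hsame k hk 2 (by norm_num) (by norm_num), hD.nd k hk]
      · rw [ht _ (by omega), hsame k hk 3 (by norm_num) (by norm_num), hD.sg k hk]
      · rw [ht _ (by omega), hsame k hk 4 (by norm_num) (by norm_num), hD.qa k hk]
      · rw [ht _ (by omega), hsame k hk 5 (by norm_num) (by norm_num), hD.sl k hk]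
    · rw [if_neg hA]
      have hall : ∀ x < 6 * J, trc (6 * J) (m.baseA p a) x = a x := by
        intro x hx
        rw [ht x hx, hbase, eq01_neg hA, zero_mul, zero_mul, add_zero,
          Nat.mod_eq_of_lt (hD.lt x hx)]
      refine ⟨fun x hx => ?_, fun k hk => ?_, fun k hk => ?_, fun k hk => ?_, fun k hk => ?_,
        fun k hk => ?_, fun k hk => ?_, hD.q2⟩
      · rw [hall x hx]
        exact hD.lt x hx
      · rw [hall _ (by omega), hD.R k hk]
      · rw [hall _ (by omega), hD.md k hk]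
      · rw [hall _ (by omega), hD.nd k hk]
      · rw [hall _ (by omega), hD.sg k hk]
      · rw [hall _ (by omega), hD.qa k hk]
      · rw [hall _ (by omega), hD.sl k hk]

end Pool.Agent.Helper70.RT
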